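import Mathlib

set_option autoImplicit false

namespace Pool.Agent.Q181.BS

open scoped NNReal InnerProductSpace Topology
open Filter InnerProductSpace

variable {H : Type*} [NormedAddCommGroup H] [InnerProductSpace ℂ H]

lemma inner_diff {A : H →L[ℂ] H} (hA : ‖A‖ ≤ 1) (u v u' v' : H) :
    ‖⟪A u, v⟫_ℂ - ⟪A u', v'⟫_ℂ‖ ≤ ‖u - u'‖ * ‖v‖ + ‖u'‖ * ‖v - v'‖ := by
  have h1 : ⟪A u, v⟫_ℂ - ⟪A u', v'⟫_ℂ = ⟪A (u - u'), v⟫_ℂ + ⟪A u', v - v'⟫_ℂ := by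
    rw [map_sub, inner_sub_left, inner_sub_right]
    ring
  have h2 : ∀ w, ‖A w‖ ≤ ‖w‖ := fun w => by
    have := A.le_of_opNorm_le hA w
    rwa [one_mul] at this
  rw [h1]
  calc ‖⟪A (u - u'), v⟫_ℂ + ⟪A u', v - v'⟫_ℂ‖
      ≤ ‖⟪A (u - u'), v⟫_ℂ‖ + ‖⟪A u', v - v'⟫_ℂ‖ := norm_add_le _ _
    _ ≤ ‖A (u - u')‖ * ‖v‖ + ‖A u'‖ * ‖v - v'‖ :=
        add_le_add (norm_inner_le_norm _ _) (norm_inner_le_norm _ _)
    _ ≤ ‖u - u'‖ * ‖v‖ + ‖u'‖ * ‖v - v'‖ :=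
        add_le_add (mul_le_mul_of_nonneg_right (h2 _) (norm_nonneg _))
          (mul_le_mul_of_nonneg_right (h2 _) (norm_nonneg _))

/-- uniform approximation of matrix coefficients of contractions -/
lemma approx {x : ℕ → H} (hx : DenseRange x) (u v : H) {ε : ℝ} (hε : 0 < ε) :
    ∃ i j : ℕ, ∀ A : H →L[ℂ] H, ‖A‖ ≤ 1 → ‖⟪A u, v⟫_ℂ - ⟪A (x i), x j⟫_ℂ‖ < ε := by
  obtain ⟨i, hi⟩ := hx.exists_dist_lt u (show 0 < ε / (2 * (‖v‖ + 1)) by positivity)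
  obtain ⟨j, hj⟩ := hx.exists_dist_lt v (show 0 < ε / (2 * (‖x i‖ + 1)) by positivity)
  refine ⟨i, j, fun A hA => (inner_diff hA u v (x i) (x j)).trans_lt ?_⟩
  rw [dist_eq_norm] at hi hj
  have h1 : ‖u - x i‖ * ‖v‖ ≤ ε / 2 := by
    rw [lt_div_iff₀ (by positivity)] at hi
    nlinarith [norm_nonneg (u - x i), norm_nonneg v]
  have h2 : ‖x i‖ * ‖v - x j‖ < ε / 2 := by
    rw [lt_div_iff₀ (by positivity)] at hj
    rcases (norm_nonneg (v - x j)).eq_or_lt with h | h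
    · rw [← h, mul_zero]; positivity
    · nlinarith [norm_nonneg (x i)]
  linarith

variable [CompleteSpace H]

/-- weak limits of contractions -/
lemma exists_limit {x : ℕ → H} (hx : DenseRange x) {A : ℕ → H →L[ℂ] H} (hA : ∀ n, ‖A n‖ ≤ 1)
    (c : ℕ → ℕ → ℂ) (hc : ∀ i j, Tendsto (fun n => ⟪A n (x i), x j⟫_ℂ) atTop (𝓝 (c i j))) :
    ∃ B : H →L[ℂ] H, ‖B‖ ≤ 1 ∧ ∀ u v, Tendsto (fun n => ⟪A n u, v⟫_ℂ) atTop (𝓝 ⟪B u, v⟫_ℂ) := by
  have hex : ∀ u v, ∃ l : ℂ, Tendsto (fun n => ⟪A n u, v⟫_ℂ) atTop (𝓝 l) := by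
    intro u v
    apply cauchySeq_tendsto_of_complete
    rw [Metric.cauchySeq_iff]
    intro ε hε
    obtain ⟨i, j, hij⟩ := approx hx u v (show 0 < ε / 3 by positivity)
    obtain ⟨N, hN⟩ := Metric.cauchySeq_iff.1 (hc i j).cauchySeq (ε / 3) (by positivity)
    refine ⟨N, fun m hm n hn => ?_⟩
    have h1 := hij (A m) (hA m)
    have h2 := hij (A n) (hA n)
    have h3 := hN m hm n hn
    rw [dist_eq_norm] at h3 ⊢
    have h4 : ⟪A m u, v⟫_ℂ - ⟪A n u, v⟫_ℂ = (⟪A m u, v⟫_ℂ - ⟪A m (x i), x j⟫_ℂ)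
        + (⟪A m (x i), x j⟫_ℂ - ⟪A n (x i), x j⟫_ℂ) - (⟪A n u, v⟫_ℂ - ⟪A n (x i), x j⟫_ℂ) := by
      ring
    rw [h4]
    calc _ ≤ ‖(⟪A m u, v⟫_ℂ - ⟪A m (x i), x j⟫_ℂ)
        + (⟪A m (x i), x j⟫_ℂ - ⟪A n (x i), x j⟫_ℂ)‖ + ‖⟪A n u, v⟫_ℂ - ⟪A n (x i), x j⟫_ℂ‖ :=
          norm_sub_le _ _
      _ ≤ ‖⟪A m u, v⟫_ℂ - ⟪A m (x i), x j⟫_ℂ‖ + ‖⟪A m (x i), x j⟫_ℂ - ⟪A n (x i), x j⟫_ℂ‖
          + ‖⟪A n u, v⟫_ℂ - ⟪A n (x i), x j⟫_ℂ‖ := by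
          gcongr
          exact norm_add_le _ _
      _ < ε := by linarith
  choose b hb using hex
  have hadd1 : ∀ u u' v, b (u + u') v = b u v + b u' v := by
    intro u u' v
    have h1 := (hb u v).add (hb u' v)
    refine tendsto_nhds_unique (hb (u + u') v) (h1.congr fun n => ?_)
    rw [map_add, inner_add_left]
  have hsmul1 : ∀ (a : ℂ) u v, b (a • u) v = starRingEnd ℂ a • b u v := by
    intro a u v
    have h1 := (hb u v).const_mul (starRingEnd ℂ a)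
    refine tendsto_nhds_unique (hb (a • u) v) (h1.congr fun n => ?_)
    rw [map_smul, inner_smul_left]
  have hadd2 : ∀ u v v', b u (v + v') = b u v + b u v' := by
    intro u v v'
    have h1 := (hb u v).add (hb u v')
    refine tendsto_nhds_unique (hb u (v + v')) (h1.congr fun n => ?_)
    rw [inner_add_right]
  have hsmul2 : ∀ (a : ℂ) u v, b u (a • v) = a • b u v := by
    intro a u v
    have h1 := (hb u v).const_mul a
    refine tendsto_nhds_unique (hb u (a • v)) (h1.congr fun n => ?_)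
    rw [inner_smul_right]
  have hbd : ∀ u v, ‖b u v‖ ≤ 1 * ‖u‖ * ‖v‖ := by
    intro u v
    refine le_of_tendsto (hb u v).norm (Eventually.of_forall fun n => ?_)
    refine (norm_inner_le_norm _ _).trans ?_
    exact mul_le_mul_of_nonneg_right ((A n).le_of_opNorm_le (hA n) u) (norm_nonneg _)
  set B₀ : H →ₗ⋆[ℂ] H →ₗ[ℂ] ℂ := LinearMap.mk₂'ₛₗ (starRingEnd ℂ) (RingHom.id ℂ) b
    hadd1 hsmul1 hadd2 hsmul2 with hB₀
  set B₁ : H →L⋆[ℂ] H →L[ℂ] ℂ := B₀.mkContinuous₂ 1 hbd with hB₁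
  have hB1 : ∀ u v, ⟪continuousLinearMapOfBilin B₁ u, v⟫_ℂ = b u v := by
    intro u v
    rw [continuousLinearMapOfBilin_apply]
    rfl
  refine ⟨continuousLinearMapOfBilin B₁, ?_, ?_⟩
  · apply ContinuousLinearMap.opNorm_le_bound _ zero_le_one
    intro u
    set w := continuousLinearMapOfBilin B₁ u with hw
    have h1 : ‖⟪w, w⟫_ℂ‖ ≤ 1 * ‖u‖ * ‖w‖ := by
      rw [hw, hB1]
      exact hbd _ _
    rw [inner_self_eq_norm_sq_to_K, norm_pow, RCLike.norm_ofReal, abs_norm] at h1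
    rcases (norm_nonneg w).eq_or_lt with h | h
    · rw [← h]; positivity
    · nlinarith
  · intro u v
    rw [hB1]
    exact hb u v

end Pool.Agent.Q181.BS
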