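import Pool.Agent.Q181.BS.Space

set_option autoImplicit false

namespace Pool.Agent.Q181.BS

open scoped NNReal InnerProductSpace Topology
open Filter InnerProductSpace Topology

variable (H : Type*) [NormedAddCommGroup H] [InnerProductSpace ℂ H]

/-- Contraction `C₀`-semigroups on `H`. -/
@[ext] structure ContractionSemigroup where
  /-- the operators `T(t)`, `t ≥ 0` -/
  T : ℝ≥0 → H →L[ℂ] H
  zero : T 0 = 1
  add : ∀ t s, T (t + s) = T t * T s
  cont : ∀ u, Continuous fun t => T t u
  contr : ∀ t, ‖T t‖ ≤ 1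

variable {H}

/-- The distance `d(T,S) = ∑_{n,i,j ≥ 1} 2^{-(i+j+n)} sup_{0 ≤ t ≤ n} |⟨(T(t)-S(t)) x_i, x_j⟩| /
(‖x_i‖ ‖x_j‖)`; the indices are shifted by one. -/
noncomputable def semDist (x : ℕ → H) (T S : ContractionSemigroup H) : ℝ :=
  ∑' p : ℕ × ℕ × ℕ, (1 / 2 : ℝ) ^ ((p.1 + 1) + (p.2.1 + 1) + (p.2.2 + 1)) *
    ((⨆ t : Set.Iic ((p.1 : ℝ≥0) + 1), ‖⟪(T.T t - S.T t) (x p.2.1), x p.2.2⟫_ℂ‖) /
      (‖x p.2.1‖ * ‖x p.2.2‖))

/-- one of the suprema -/
noncomputable def su (T S : ContractionSemigroup H) (n : ℕ) (u v : H) : ℝ :=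
  ⨆ t : Set.Iic ((n : ℝ≥0) + 1), ‖⟪(T.T t - S.T t) u, v⟫_ℂ‖

instance (n : ℕ) : Nonempty (Set.Iic ((n : ℝ≥0) + 1)) := ⟨⟨0, by simp⟩⟩

lemma term_le (T S : ContractionSemigroup H) (t : ℝ≥0) (u v : H) :
    ‖⟪(T.T t - S.T t) u, v⟫_ℂ‖ ≤ 2 * (‖u‖ * ‖v‖) := by
  have h1 : ‖(T.T t - S.T t) u‖ ≤ 2 * ‖u‖ := by
    have : ‖T.T t - S.T t‖ ≤ 2 := (norm_sub_le _ _).trans (by linarith [T.contr t, S.contr t])
    exact (T.T t - S.T t).le_of_opNorm_le this u
  calc _ ≤ ‖(T.T t - S.T t) u‖ * ‖v‖ := norm_inner_le_norm _ _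
    _ ≤ (2 * ‖u‖) * ‖v‖ := mul_le_mul_of_nonneg_right h1 (norm_nonneg _)
    _ = 2 * (‖u‖ * ‖v‖) := by ring

lemma bdd (T S : ContractionSemigroup H) (n : ℕ) (u v : H) :
    BddAbove (Set.range fun t : Set.Iic ((n : ℝ≥0) + 1) => ‖⟪(T.T t - S.T t) u, v⟫_ℂ‖) :=
  ⟨2 * (‖u‖ * ‖v‖), by rintro _ ⟨t, rfl⟩; exact term_le T S t u v⟩

lemma le_su (T S : ContractionSemigroup H) (n : ℕ) (u v : H) {t : ℝ≥0} (ht : t ≤ (n : ℝ≥0) + 1) :
    ‖⟪(T.T t - S.T t) u, v⟫_ℂ‖ ≤ su T S n u v :=
  le_ciSup (bdd T S n u v) ⟨t, ht⟩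

lemma su_nonneg (T S : ContractionSemigroup H) (n : ℕ) (u v : H) : 0 ≤ su T S n u v :=
  (norm_nonneg _).trans (le_su T S n u v (zero_le (a := (n : ℝ≥0) + 1)))

lemma su_le (T S : ContractionSemigroup H) (n : ℕ) (u v : H) : su T S n u v ≤ 2 * (‖u‖ * ‖v‖) :=
  ciSup_le fun t => term_le T S t u v

lemma su_comm (T S : ContractionSemigroup H) (n : ℕ) (u v : H) : su T S n u v = su S T n u v := by
  unfold su
  congr 1
  funext t
  rw [← neg_sub, neg_apply, inner_neg_left, norm_neg]

lemma su_self (T : ContractionSemigroup H) (n : ℕ) (u v : H) : su T T n u v = 0 := by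
  unfold su
  simp

lemma su_triangle (T S R : ContractionSemigroup H) (n : ℕ) (u v : H) :
    su T R n u v ≤ su T S n u v + su S R n u v := by
  apply ciSup_le
  intro t
  have h1 : ⟪(T.T t - R.T t) u, v⟫_ℂ = ⟪(T.T t - S.T t) u, v⟫_ℂ + ⟪(S.T t - R.T t) u, v⟫_ℂ := by
    rw [← inner_add_left, ← add_apply, sub_add_sub_cancel]
  rw [h1]
  exact (norm_add_le _ _).trans (add_le_add (le_su T S n u v t.2) (le_su S R n u v t.2))

/-- the general term -/
noncomputable def gt (x : ℕ → H) (T S : ContractionSemigroup H) (p : ℕ × ℕ × ℕ) : ℝ :=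
  (1 / 2 : ℝ) ^ ((p.1 + 1) + (p.2.1 + 1) + (p.2.2 + 1)) *
    (su T S p.1 (x p.2.1) (x p.2.2) / (‖x p.2.1‖ * ‖x p.2.2‖))

lemma semDist_eq (x : ℕ → H) (T S : ContractionSemigroup H) : semDist x T S = ∑' p, gt x T S p := rfl

lemma gt_nonneg (x : ℕ → H) (T S : ContractionSemigroup H) (p : ℕ × ℕ × ℕ) : 0 ≤ gt x T S p := by
  have := su_nonneg T S p.1 (x p.2.1) (x p.2.2)
  unfold gt
  positivity

lemma gt_le {x : ℕ → H} (hx0 : ∀ i, x i ≠ 0) (T S : ContractionSemigroup H) (p : ℕ × ℕ × ℕ) :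
    gt x T S p ≤ (1 / 2 : ℝ) ^ ((p.1 + 1) + (p.2.1 + 1) + (p.2.2 + 1)) * 2 := by
  unfold gt
  apply mul_le_mul_of_nonneg_left _ (by positivity)
  have h1 := norm_pos_iff.2 (hx0 p.2.1)
  have h2 := norm_pos_iff.2 (hx0 p.2.2)
  rw [div_le_iff₀ (by positivity)]
  exact su_le _ _ _ _ _

lemma summable_bound : Summable fun p : ℕ × ℕ × ℕ =>
    (1 / 2 : ℝ) ^ ((p.1 + 1) + (p.2.1 + 1) + (p.2.2 + 1)) * 2 := by
  have h1 : Summable fun n : ℕ => (1 / 2 : ℝ) ^ (n + 1) :=
    (summable_nat_add_iff 1).2 summable_geometric_two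
  have h2 : Summable fun p : ℕ × ℕ => (1 / 2 : ℝ) ^ (p.1 + 1) * (1 / 2 : ℝ) ^ (p.2 + 1) :=
    h1.mul_of_nonneg h1 (fun n => by positivity) (fun n => by positivity)
  have h3 : Summable fun p : ℕ × ℕ × ℕ =>
      (1 / 2 : ℝ) ^ (p.1 + 1) * ((1 / 2 : ℝ) ^ (p.2.1 + 1) * (1 / 2 : ℝ) ^ (p.2.2 + 1)) :=
    h1.mul_of_nonneg h2 (fun n => by positivity) (fun n => by positivity)
  refine (h3.mul_right 2).congr fun p => ?_
  rw [pow_add, pow_add]
  ring

lemma summable_gt {x : ℕ → H} (hx0 : ∀ i, x i ≠ 0) (T S : ContractionSemigroup H) :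
    Summable (gt x T S) :=
  summable_bound.of_nonneg_of_le (gt_nonneg x T S) (gt_le hx0 T S)

/-- the metric space of contraction semigroups -/
@[reducible] noncomputable def semMetric (x : ℕ → H) (hx : DenseRange x) (hx0 : ∀ i, x i ≠ 0) :
    MetricSpace (ContractionSemigroup H) where
  dist := semDist x
  dist_self T := by
    rw [semDist_eq]
    simp [gt, su_self]
  dist_comm T S := by
    rw [semDist_eq, semDist_eq]
    congr 1
    funext p
    simp only [gt, su_comm T S]
  dist_triangle T S R := by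
    rw [semDist_eq, semDist_eq, semDist_eq, ← (summable_gt hx0 T S).tsum_add (summable_gt hx0 S R)]
    apply (summable_gt hx0 T R).tsum_le_tsum _ ((summable_gt hx0 T S).add (summable_gt hx0 S R))
    intro p
    show gt x T R p ≤ gt x T S p + gt x S R p
    unfold gt
    rw [← mul_add, ← add_div]
    apply mul_le_mul_of_nonneg_left _ (by positivity)
    exact div_le_div_of_nonneg_right (su_triangle T S R _ _ _) (by positivity)
  eq_of_dist_eq_zero := by
    intro T S h
    have h1 : ∑' p, gt x T S p = 0 := h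
    have h2 : ∀ p, gt x T S p = 0 := by
      have := (hasSum_zero_iff_of_nonneg (gt_nonneg x T S)).1 (h1 ▸ (summable_gt hx0 T S).hasSum)
      exact fun p => congrFun this p
    apply ContractionSemigroup.ext
    funext t
    apply eq_of_coeff hx
    intro i j
    obtain ⟨n, hn⟩ := exists_nat_ge t
    have h3 := h2 (n, i, j)
    unfold gt at h3
    have h4 : su T S n (x i) (x j) = 0 := by
      have e1 := norm_pos_iff.2 (hx0 i)
      have e2 := norm_pos_iff.2 (hx0 j)
      rcases mul_eq_zero.1 h3 with h5 | h5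
      · exact absurd h5 (by positivity)
      · rcases div_eq_zero_iff.1 h5 with h6 | h6
        · exact h6
        · exact absurd h6 (by positivity)
    have h5 := le_su T S n (x i) (x j) (hn.trans (le_add_of_nonneg_right zero_le_one))
    rw [h4] at h5
    have h6 := norm_le_zero_iff.1 h5
    rw [sub_apply, inner_sub_left, sub_eq_zero] at h6
    exact h6

/-- a semigroup as a family -/
def toFam (T : ContractionSemigroup H) : WFam H :=
  ⟨T.T, T.zero, fun u _ => (T.cont u).inner continuous_const, T.contr⟩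

lemma toFam_injective : Function.Injective (toFam (H := H)) := by
  intro T S h
  apply ContractionSemigroup.ext
  exact congrArg WFam.T h

lemma range_toFam : Set.range (toFam (H := H)) = SG := by
  ext F
  constructor
  · rintro ⟨T, rfl⟩
    exact T.add
  · intro hF
    have hc : ∀ (t : ℝ≥0) u, ‖F.T t u‖ ≤ ‖u‖ := fun t u => by
      have := (F.T t).le_of_opNorm_le (F.contr t) u
      rwa [one_mul] at this
    -- continuity at zero
    have h0 : ∀ u, Tendsto (fun h => ‖F.T h u - u‖) (𝓝 0) (𝓝 0) := by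
      intro u
      have h1 : Tendsto (fun h => Real.sqrt (2 * ‖u‖ ^ 2 - 2 * (⟪F.T h u, u⟫_ℂ).re)) (𝓝 0)
          (𝓝 (Real.sqrt (2 * ‖u‖ ^ 2 - 2 * (⟪F.T 0 u, u⟫_ℂ).re))) := by
        apply (Real.continuous_sqrt.tendsto _).comp
        exact (tendsto_const_nhds.sub
          ((Complex.continuous_re.tendsto _).comp ((F.cont u u).tendsto 0) |>.const_mul 2))
      have h2 : Real.sqrt (2 * ‖u‖ ^ 2 - 2 * (⟪F.T 0 u, u⟫_ℂ).re) = 0 := by
        rw [F.zero]
        have : ⟪(1 : H →L[ℂ] H) u, u⟫_ℂ = ⟪u, u⟫_ℂ := rfl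
        rw [this]
        have h3 : (⟪u, u⟫_ℂ).re = ‖u‖ ^ 2 := inner_self_eq_norm_sq (𝕜 := ℂ) u
        rw [h3, sub_self, Real.sqrt_zero]
      rw [h2] at h1
      apply squeeze_zero (fun _ => norm_nonneg _) _ h1
      intro h
      apply Real.le_sqrt_of_sq_le
      rw [@norm_sub_sq ℂ]
      have h3 := hc h u
      have h4 : RCLike.re ⟪F.T h u, u⟫_ℂ = (⟪F.T h u, u⟫_ℂ).re := rfl
      rw [h4]
      nlinarith [norm_nonneg (F.T h u), norm_nonneg u]
    have h1 : ∀ u (t s : ℝ≥0), t ≤ s → ‖F.T s u - F.T t u‖ ≤ ‖F.T (s - t) u - u‖ := by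
      intro u t s hts
      have h2 : F.T s u = F.T t (F.T (s - t) u) := by
        have := hF t (s - t)
        rw [add_tsub_cancel_of_le hts] at this
        rw [this]; rfl
      rw [h2, ← map_sub]
      exact hc t _
    refine ⟨⟨F.T, F.zero, hF, ?_, F.contr⟩, rfl⟩
    intro u
    rw [continuous_iff_continuousAt]
    intro t
    have h2 : Tendsto (fun s => ‖F.T (s - t) u - u‖ + ‖F.T (t - s) u - u‖) (𝓝 t) (𝓝 0) := by
      have c1 : Tendsto (fun s : ℝ≥0 => s - t) (𝓝 t) (𝓝 0) := by
        have h := (show Continuous (fun s : ℝ≥0 => s - t) from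
          continuous_id.sub continuous_const).tendsto t
        rwa [tsub_self] at h
      have c2 : Tendsto (fun s : ℝ≥0 => t - s) (𝓝 t) (𝓝 0) := by
        have h := (show Continuous (fun s : ℝ≥0 => t - s) from
          continuous_const.sub continuous_id).tendsto t
        rwa [tsub_self] at h
      have := ((h0 u).comp c1).add ((h0 u).comp c2)
      rw [add_zero] at this
      exact this
    rw [ContinuousAt, tendsto_iff_norm_sub_tendsto_zero]
    apply squeeze_zero (fun _ => norm_nonneg _) _ h2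
    intro s
    rcases le_total t s with h | h
    · exact (h1 u t s h).trans (le_add_of_nonneg_right (norm_nonneg _))
    · rw [norm_sub_rev]
      exact (h1 u s t h).trans (le_add_of_nonneg_left (norm_nonneg _))

/-- the metric induces the topology of the families -/
lemma inducing {x : ℕ → H} (hx : DenseRange x) (hx0 : ∀ i, x i ≠ 0) :
    @IsInducing _ _ (semMetric x hx hx0).toPseudoMetricSpace.toUniformSpace.toTopologicalSpace
      _ (fun T => kern x (toFam T)) := by
  let _ := semMetric x hx hx0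
  rw [isInducing_iff_nhds]
  intro T
  apply le_antisymm
  · rw [← map_le_iff_le_comap]
    show Tendsto (fun T => kern x (toFam T)) (𝓝 T) (𝓝 (kern x (toFam T)))
    rw [tendsto_pi_nhds]
    rintro ⟨i, j⟩
    rw [ContinuousMap.tendsto_iff_forall_isCompact_tendstoUniformlyOn]
    intro K hK
    rw [Metric.tendstoUniformlyOn_iff]
    intro ε hε
    obtain ⟨b, hb⟩ := hK.bddAbove
    obtain ⟨n, hn⟩ := exists_nat_ge b
    have e1 := norm_pos_iff.2 (hx0 i)
    have e2 := norm_pos_iff.2 (hx0 j)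
    set c : ℝ := (1 / 2 : ℝ) ^ ((n + 1) + (i + 1) + (j + 1)) / (‖x i‖ * ‖x j‖) with hc
    have hcp : 0 < c := by positivity
    have hball : ∀ᶠ S in 𝓝 T, dist S T < c * ε := Metric.ball_mem_nhds T (by positivity)
    filter_upwards [hball] with S hS t ht
    have h1 : gt x S T (n, i, j) ≤ dist S T :=
      (summable_gt hx0 S T).le_tsum (n, i, j) (fun p _ => gt_nonneg x S T p)
    have h2 : gt x S T (n, i, j) = c * su S T n (x i) (x j) := by
      unfold gt
      rw [hc]
      ring
    rw [h2] at h1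
    have h3 : su S T n (x i) (x j) < ε := by
      have := h1.trans_lt hS
      exact lt_of_mul_lt_mul_left this hcp.le
    have h4 := le_su S T n (x i) (x j)
      (((hb ht).trans hn).trans (le_add_of_nonneg_right zero_le_one))
    rw [dist_comm, dist_eq_norm]
    refine lt_of_le_of_lt ?_ h3
    refine le_trans (le_of_eq ?_) h4
    rw [sub_apply, inner_sub_left]
    rfl
  · show Tendsto (fun S => S) (comap (fun T => kern x (toFam T)) (𝓝 (kern x (toFam T)))) (𝓝 T)
    set l := comap (fun T => kern x (toFam T)) (𝓝 (kern x (toFam T))) with hl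
    rw [tendsto_iff_dist_tendsto_zero]
    have hl1 : Tendsto (fun S => kern x (toFam S)) l (𝓝 (kern x (toFam T))) := tendsto_comap
    have h1 : ∀ p, Tendsto (fun S => gt x S T p) l (𝓝 0) := by
      rintro ⟨n, i, j⟩
      have h2 := (tendsto_pi_nhds.1 hl1) (i, j)
      rw [ContinuousMap.tendsto_iff_forall_isCompact_tendstoUniformlyOn] at h2
      have hK : IsCompact (Set.Iic ((n : ℝ≥0) + 1)) := by
        have : Set.Iic ((n : ℝ≥0) + 1) = Set.Icc 0 ((n : ℝ≥0) + 1) := by
          ext; simp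
        rw [this]
        exact isCompact_Icc
      have h3 := h2 _ hK
      rw [Metric.tendstoUniformlyOn_iff] at h3
      have h4 : Tendsto (fun S => su S T n (x i) (x j)) l (𝓝 0) := by
        rw [Metric.tendsto_nhds]
        intro ε hε
        filter_upwards [h3 (ε / 2) (by positivity)] with S hS
        rw [Real.dist_eq, sub_zero, abs_of_nonneg (su_nonneg _ _ _ _ _)]
        refine lt_of_le_of_lt ?_ (half_lt_self hε)
        apply ciSup_le
        intro t
        have h5 := hS t t.2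
        rw [dist_comm, dist_eq_norm] at h5
        refine le_trans (le_of_eq ?_) h5.le
        rw [sub_apply, inner_sub_left]
        rfl
      have h5 := (h4.div_const (‖x i‖ * ‖x j‖)).const_mul
        ((1 / 2 : ℝ) ^ ((n + 1) + (i + 1) + (j + 1)))
      rw [zero_div, mul_zero] at h5
      exact h5
    have h2 := tendsto_tsum_of_dominated_convergence (𝓕 := l) (f := fun S p => gt x S T p)
      (g := fun _ => (0 : ℝ)) summable_bound h1 (Eventually.of_forall fun S p => by
        rw [Real.norm_of_nonneg (gt_nonneg x S T p)]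
        exact gt_le hx0 S T p)
    rw [tsum_zero] at h2
    exact h2

variable [CompleteSpace H]

theorem baire {x : ℕ → H} (hx : DenseRange x) (hx0 : ∀ i, x i ≠ 0) :
    @BaireSpace _ (semMetric x hx hx0).toPseudoMetricSpace.toUniformSpace.toTopologicalSpace := by
  let _ := semMetric x hx hx0
  let _ := wtop x
  have hk : IsInducing (kern x (H := H)) := ⟨rfl⟩
  have hke : IsClosedEmbedding (kern x (H := H)) :=
    ⟨⟨hk, kern_injective hx⟩, isClosed_range hx⟩
  -- the closure of the semigroups is a Baire space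
  set Z : Set (WFam H) := closure SG with hZ
  have hZe : IsClosedEmbedding (fun z : Z => kern x (z : WFam H)) :=
    hke.comp isClosed_closure.isClosedEmbedding_subtypeVal
  have : TopologicalSpace.IsCompletelyPseudoMetrizableSpace Z :=
    hZe.IsCompletelyPseudoMetrizableSpace
  have hZB : BaireSpace Z := inferInstance
  set S : Set Z := {z | (z : WFam H) ∈ SG} with hS
  have hG : IsGδ S := (isGδ_SG hx).preimage continuous_subtype_val
  have hD : Dense S := by
    intro z
    rw [closure_subtype]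
    have h1 : ((↑) : Z → WFam H) '' S = SG := by
      ext F
      constructor
      · rintro ⟨w, hw, rfl⟩
        exact hw
      · intro hF
        exact ⟨⟨F, subset_closure hF⟩, hF, rfl⟩
    rw [h1]
    exact z.2
  have hSB : BaireSpace S := hG.baireSpace_of_dense hD
  -- the semigroups are homeomorphic to S
  have hmem : ∀ T : ContractionSemigroup H, toFam T ∈ SG := fun T => by
    rw [← range_toFam]; exact ⟨T, rfl⟩
  set k : ContractionSemigroup H → S := fun T => ⟨⟨toFam T, subset_closure (hmem T)⟩, hmem T⟩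
    with hkdef
  have hi : IsInducing (fun s : S => kern x ((s : Z) : WFam H)) :=
    hk.comp (IsInducing.subtypeVal.comp IsInducing.subtypeVal)
  have hki : IsInducing k := by
    have h1 : IsInducing ((fun s : S => kern x ((s : Z) : WFam H)) ∘ k) := inducing hx hx0
    exact (hi.of_comp_iff).1 h1
  have hkinj : Function.Injective k := by
    intro T R h
    apply toFam_injective
    exact congrArg (fun s : S => ((s : Z) : WFam H)) h
  have hksurj : Function.Surjective k := by
    rintro ⟨⟨F, hF⟩, hF'⟩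
    have h1 : F ∈ Set.range (toFam (H := H)) := by rw [range_toFam]; exact hF'
    obtain ⟨T, hT⟩ := h1
    exact ⟨T, Subtype.ext (Subtype.ext hT)⟩
  have hemb : IsOpenEmbedding k :=
    ⟨⟨hki, hkinj⟩, by rw [hksurj.range_eq]; exact isOpen_univ⟩
  exact hemb.baireSpace

end Pool.Agent.Q181.BS
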