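import Pool.Agent.Q181.BS.Fam

set_option autoImplicit false

namespace Pool.Agent.Q181.BS

open scoped NNReal InnerProductSpace Topology
open Filter InnerProductSpace Topology

variable (H : Type*) [NormedAddCommGroup H] [InnerProductSpace ℂ H]

/-- weakly continuous families of contractions -/
@[ext] structure WFam where
  T : ℝ≥0 → H →L[ℂ] H
  zero : T 0 = 1
  cont : ∀ x y, Continuous fun t => ⟪T t x, y⟫_ℂ
  contr : ∀ t, ‖T t‖ ≤ 1

variable {H}

/-- matrix coefficients -/
noncomputable def kern (x : ℕ → H) (F : WFam H) : ℕ × ℕ → C(ℝ≥0, ℂ) :=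
  fun p => ⟨fun t => ⟪F.T t (x p.1), x p.2⟫_ℂ, F.cont _ _⟩

lemma eq_of_coeff {x : ℕ → H} (hx : DenseRange x) {A B : H →L[ℂ] H}
    (h : ∀ i j, ⟪A (x i), x j⟫_ℂ = ⟪B (x i), x j⟫_ℂ) : A = B := by
  have h1 : ∀ i, A (x i) = B (x i) := by
    intro i
    apply hx.eq_of_inner_left (𝕜 := ℂ)
    intro j
    exact h i j
  have h2 : (A : H → H) = B := by
    apply hx.equalizer A.continuous B.continuous
    funext i
    exact h1 i
  exact DFunLike.coe_injective h2

lemma kern_injective {x : ℕ → H} (hx : DenseRange x) : Function.Injective (kern x) := by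
  intro F G h
  apply WFam.ext
  funext t
  apply eq_of_coeff hx
  intro i j
  have := congrFun h (i, j)
  exact congrArg (fun g : C(ℝ≥0, ℂ) => g t) this

/-- the topology on the families -/
@[reducible] noncomputable def wtop (x : ℕ → H) : TopologicalSpace (WFam H) := TopologicalSpace.induced (kern x) inferInstance

lemma isClosed_range [CompleteSpace H] {x : ℕ → H} (hx : DenseRange x) :
    IsClosed (Set.range (kern x)) := by
  apply isClosed_of_closure_subset
  intro g hg
  rw [mem_closure_iff_seq_limit] at hg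
  obtain ⟨G, hG, hlim⟩ := hg
  choose F hF using hG
  have hl : ∀ i j t, Tendsto (fun n => ⟪(F n).T t (x i), x j⟫_ℂ) atTop (𝓝 (g (i, j) t)) := by
    intro i j t
    have h1 : Tendsto (fun n => G n (i, j)) atTop (𝓝 (g (i, j))) := (tendsto_pi_nhds.1 hlim) (i, j)
    have h2 : Tendsto (fun n => (G n (i, j)) t) atTop (𝓝 (g (i, j) t)) :=
      ((continuous_eval_const t).tendsto _).comp h1
    refine h2.congr fun n => ?_
    rw [← hF n]
    rfl
  have hB : ∀ t, ∃ B : H →L[ℂ] H, ‖B‖ ≤ 1 ∧
      ∀ u v, Tendsto (fun n => ⟪(F n).T t u, v⟫_ℂ) atTop (𝓝 ⟪B u, v⟫_ℂ) := by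
    intro t
    exact exists_limit hx (fun n => (F n).contr t) (fun i j => g (i, j) t) (fun i j => hl i j t)
  choose B hB1 hB2 using hB
  have hco : ∀ i j t, ⟪B t (x i), x j⟫_ℂ = g (i, j) t := fun i j t =>
    tendsto_nhds_unique (hB2 t (x i) (x j)) (hl i j t)
  refine ⟨⟨B, ?_, ?_, hB1⟩, ?_⟩
  · apply eq_of_coeff hx
    intro i j
    refine tendsto_nhds_unique (hB2 0 (x i) (x j)) ?_
    refine tendsto_const_nhds.congr fun n => ?_
    rw [(F n).zero]
  · intro u v
    apply continuous_of_uniform_approx_of_continuous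
    intro s hs
    obtain ⟨ε, hε, hs⟩ := Metric.mem_uniformity_dist.1 hs
    obtain ⟨i, j, hij⟩ := approx hx u v hε
    refine ⟨fun t => g (i, j) t, (g (i, j)).continuous, fun t => hs ?_⟩
    rw [dist_eq_norm]
    show ‖⟪B t u, v⟫_ℂ - g (i, j) t‖ < ε
    rw [← hco]
    exact hij (B t) (hB1 t)
  · funext p
    ext t
    exact hco p.1 p.2 t

lemma continuous_coeff {x : ℕ → H} (hx : DenseRange x) (t : ℝ≥0) (u v : H) :
    @Continuous _ _ (wtop x) _ (fun F : WFam H => ⟪F.T t u, v⟫_ℂ) := by
  let _ := wtop x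
  apply continuous_of_uniform_approx_of_continuous
  intro s hs
  obtain ⟨ε, hε, hs⟩ := Metric.mem_uniformity_dist.1 hs
  obtain ⟨i, j, hij⟩ := approx hx u v hε
  refine ⟨fun F : WFam H => kern x F (i, j) t, ?_, fun F => hs ?_⟩
  · have h1 : Continuous (kern x) := continuous_induced_dom
    exact (continuous_eval_const t).comp ((continuous_apply (i, j)).comp h1)
  · rw [dist_eq_norm]
    exact hij (F.T t) (F.contr t)

/-- the finite dimensional subspaces spanned by the first vectors -/
noncomputable def sp (x : ℕ → H) (n : ℕ) : Submodule ℂ H :=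
  Submodule.span ℂ (x '' (Finset.range n : Set ℕ))

instance (x : ℕ → H) (n : ℕ) : FiniteDimensional ℂ (sp x n) :=
  FiniteDimensional.span_of_finite ℂ ((Finset.finite_toSet _).image _)

lemma sp_mono (x : ℕ → H) : Monotone (sp x) := by
  intro m n h
  apply Submodule.span_mono
  apply Set.image_mono
  exact_mod_cast Finset.range_mono h

lemma sp_dense {x : ℕ → H} (hx : DenseRange x) : ⊤ ≤ (⨆ n, sp x n).topologicalClosure := by
  intro u _
  have h1 : Set.range x ⊆ ((⨆ n, sp x n : Submodule ℂ H) : Set H) := by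
    rintro _ ⟨i, rfl⟩
    have h2 : x i ∈ sp x (i + 1) := by
      apply Submodule.subset_span
      exact ⟨i, by simp, rfl⟩
    exact (le_iSup (sp x) (i + 1)) h2
  have h3 : u ∈ closure (Set.range x) := hx u
  exact closure_mono h1 h3

/-- the compressed products are continuous -/
lemma continuous_prod {x : ℕ → H} (hx : DenseRange x) (t s : ℝ≥0) (u v : H) (n : ℕ) :
    @Continuous _ _ (wtop x) _
      (fun F : WFam H => ⟪F.T t ((sp x n).starProjection (F.T s u)), v⟫_ℂ) := by
  let _ := wtop x
  set b := stdOrthonormalBasis ℂ (sp x n) with hb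
  have h1 : ∀ w : H, (sp x n).starProjection w = ∑ k, ⟪(b k : H), w⟫_ℂ • (b k : H) := by
    intro w
    rw [Submodule.starProjection_apply, b.orthogonalProjectionOnto_apply_eq_sum]
    push_cast
    rfl
  have h2 : ∀ F : WFam H, ⟪F.T t ((sp x n).starProjection (F.T s u)), v⟫_ℂ =
      ∑ k, ⟪F.T s u, (b k : H)⟫_ℂ * ⟪F.T t (b k : H), v⟫_ℂ := by
    intro F
    rw [h1, map_sum, sum_inner]
    apply Finset.sum_congr rfl
    intro k _
    rw [map_smul, inner_smul_left, inner_conj_symm]
  simp only [h2]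
  apply continuous_finsetSum
  intro k _
  exact (continuous_coeff hx s _ _).mul (continuous_coeff hx t _ _)

/-- the semigroups among the families -/
def SG : Set (WFam H) := {F | ∀ t s, F.T (t + s) = F.T t * F.T s}

lemma isGδ_of_limit {X : Type*} [TopologicalSpace X] {φ : ℕ → X → ℂ} {ψ χ : X → ℂ}
    (hφ : ∀ n, Continuous (φ n)) (hψ : Continuous ψ)
    (hl : ∀ a, Tendsto (fun n => φ n a) atTop (𝓝 (χ a))) : IsGδ {a | χ a = ψ a} := by
  have h1 : {a | χ a = ψ a} = ⋂ m : ℕ, ⋃ n : ℕ, {a | m ≤ n ∧ ‖φ n a - ψ a‖ < 1 / ((m : ℝ) + 1)} := by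
    ext a
    simp only [Set.mem_ofPred_eq, Set.mem_iInter, Set.mem_iUnion]
    constructor
    · intro h m
      have h2 := hl a
      rw [h] at h2
      have h3 : Tendsto (fun n => ‖φ n a - ψ a‖) atTop (𝓝 0) := by
        have := (h2.sub_const (ψ a)).norm
        simpa using this
      have h4 := h3.eventually (gt_mem_nhds (show (0 : ℝ) < 1 / ((m : ℝ) + 1) by positivity))
      obtain ⟨n, hn1, hn2⟩ := (h4.and (eventually_ge_atTop m)).exists
      exact ⟨n, hn2, hn1⟩
    · intro h
      choose n hn using h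
      have h2 : Tendsto n atTop atTop := tendsto_atTop_mono (fun m => (hn m).1) tendsto_id
      have h3 : Tendsto (fun m => φ (n m) a - ψ a) atTop (𝓝 (χ a - ψ a)) :=
        ((hl a).comp h2).sub_const _
      have h4 : Tendsto (fun m => φ (n m) a - ψ a) atTop (𝓝 0) := by
        apply squeeze_zero_norm (fun m => (hn m).2.le)
        exact tendsto_one_div_add_atTop_nhds_zero_nat
      exact sub_eq_zero.1 (tendsto_nhds_unique h3 h4)
  rw [h1]
  apply IsGδ.iInter_of_isOpen
  intro m
  apply isOpen_iUnion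
  intro n
  by_cases hmn : m ≤ n
  · simp only [hmn, true_and]
    exact isOpen_lt ((hφ n).sub hψ).norm continuous_const
  · simp only [hmn, false_and, Set.ofPred_false]
    exact isOpen_empty

lemma isGδ_SG [CompleteSpace H] {x : ℕ → H} (hx : DenseRange x) : @IsGδ _ (wtop x) (SG : Set (WFam H)) := by
  let _ := wtop x
  obtain ⟨Q, hQ1, hQ2⟩ := TopologicalSpace.exists_countable_dense ℝ≥0
  have h1 : (SG : Set (WFam H)) = ⋂ t ∈ Q, ⋂ s ∈ Q, ⋂ p : ℕ × ℕ,
      {F | ⟪F.T t (F.T s (x p.1)), x p.2⟫_ℂ = ⟪F.T (t + s) (x p.1), x p.2⟫_ℂ} := by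
    ext F
    simp only [Set.mem_iInter, Set.mem_ofPred_eq]
    constructor
    · intro h t _ s _ p
      rw [h t s]
      rfl
    · intro h
      have h2 : ∀ t ∈ Q, ∀ s ∈ Q, F.T (t + s) = F.T t * F.T s := by
        intro t ht s hs
        apply eq_of_coeff hx
        intro i j
        exact (h t ht s hs (i, j)).symm
      have h3 : ∀ t ∈ Q, ∀ s, F.T (t + s) = F.T t * F.T s := by
        intro t ht s
        apply eq_of_coeff hx
        intro i j
        have c1 : Continuous (fun s => ⟪F.T (t + s) (x i), x j⟫_ℂ) :=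
          (F.cont (x i) (x j)).comp (continuous_const.add continuous_id)
        have c2 : Continuous (fun s => ⟪(F.T t * F.T s) (x i), x j⟫_ℂ) := by
          have : ∀ s, ⟪(F.T t * F.T s) (x i), x j⟫_ℂ
              = ⟪F.T s (x i), (ContinuousLinearMap.adjoint (F.T t)) (x j)⟫_ℂ := by
            intro s
            rw [ContinuousLinearMap.adjoint_inner_right]
            rfl
          simp only [this]
          exact F.cont _ _
        have := Continuous.ext_on hQ2 c1 c2 (fun s hs => by
          show ⟪F.T (t + s) (x i), x j⟫_ℂ = ⟪(F.T t * F.T s) (x i), x j⟫_ℂ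
          rw [h2 t ht s hs])
        exact congrFun this s
      intro t s
      apply eq_of_coeff hx
      intro i j
      have c1 : Continuous (fun t => ⟪F.T (t + s) (x i), x j⟫_ℂ) :=
        (F.cont (x i) (x j)).comp (continuous_id.add continuous_const)
      have c2 : Continuous (fun t => ⟪(F.T t * F.T s) (x i), x j⟫_ℂ) := F.cont (F.T s (x i)) (x j)
      have := Continuous.ext_on hQ2 c1 c2 (fun t ht => by
        show ⟪F.T (t + s) (x i), x j⟫_ℂ = ⟪(F.T t * F.T s) (x i), x j⟫_ℂ
        rw [h3 t ht s])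
      exact congrFun this t
  rw [h1]
  apply IsGδ.biInter hQ1
  intro t _
  apply IsGδ.biInter hQ1
  intro s _
  apply IsGδ.iInter
  intro p
  apply isGδ_of_limit (φ := fun n F => ⟪F.T t ((sp x n).starProjection (F.T s (x p.1))), x p.2⟫_ℂ)
  · intro n
    exact continuous_prod hx t s _ _ n
  · exact continuous_coeff hx (t + s) _ _
  · intro F
    have h2 := Submodule.starProjection_tendsto_self (sp x) (sp_mono x) (F.T s (x p.1))
      (sp_dense hx)
    exact (((F.T t).continuous.tendsto _).comp h2).inner tendsto_const_nhds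

end Pool.Agent.Q181.BS
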